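import Pool.Agent.LPV.Stmts

/-!
# Squad LPV, row TOV (helper39): the total of a certificate is nonnegative
-/

set_option autoImplicit false

noncomputable section

open MeasureTheory Filter Topology
open scoped RealInnerProductSpace

namespace Pool.Agent.LPV.H39

open Pool.Agent.LPK Pool.Agent.LPV

/-! ### lists -/

/-- sums of lists of summable families -/
theorem hs_list {ι α : Type} (L : List α) (F : α → ι → ℝ) (S : α → ℝ)
    (h : ∀ d ∈ L, HasSum (F d) (S d)) :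
    HasSum (fun a => (L.map fun d => F d a).sum) (L.map S).sum := by
  induction L with
  | nil => simpa using (hasSum_zero : HasSum (fun _ : ι => (0 : ℝ)) 0)
  | cons d L ih =>
    simp only [List.map_cons, List.sum_cons]
    exact (h d List.mem_cons_self).add (ih fun e he => h e (List.mem_cons_of_mem _ he))

theorem ls_mul {α : Type} (L : List α) (f : α → ℝ) (c : ℝ) :
    (L.map f).sum * c = (L.map fun d => f d * c).sum := by
  induction L with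
  | nil => simp
  | cons d L ih => simp only [List.map_cons, List.sum_cons, add_mul, ih]

theorem ls_add {α : Type} (L : List α) (f g : α → ℝ) :
    (L.map f).sum + (L.map g).sum = (L.map fun d => f d + g d).sum := by
  induction L with
  | nil => simp
  | cons d L ih =>
    simp only [List.map_cons, List.sum_cons]
    rw [← ih]
    ring

theorem ls_nonneg {α : Type} (L : List α) (f : α → ℝ) (h : ∀ d ∈ L, 0 ≤ f d) :
    0 ≤ (L.map f).sum := by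
  induction L with
  | nil => simp
  | cons d L ih =>
    simp only [List.map_cons, List.sum_cons]
    exact add_nonneg (h d List.mem_cons_self) (ih fun e he => h e (List.mem_cons_of_mem _ he))

theorem ls_congr {α : Type} (L : List α) {f g : α → ℝ} (h : ∀ d, f d = g d) :
    (L.map f).sum = (L.map g).sum := by
  rw [show f = g from funext h]

theorem ls_map {α β : Type} (L : List α) (p : α → β) (f : β → ℝ) :
    ((L.map p).map f).sum = (L.map fun d => f (p d)).sum := by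
  rw [List.map_map]
  rfl

/-! ### the pieces -/

section

variable {n : ℕ} (D : DW)

theorem W1_mul (s t : List ℤ) (x y : V n) :
    e1 s (‖x‖ ^ 2) * e1 t (‖y‖ ^ 2) * (G x * G y) = W1 s x * W1 t y := by
  unfold W1
  ring

/-- pairs of the lattice -/
theorem gLL_eq (b : Fin n → V n) (a : Z2 n) : gLL D b a =
    W D.P (pt b a.1) (pt b a.2) +
    (D.ps.map fun d => (d.1 : ℝ) * (W1 d.2.2 (pt b a.1) * W1 d.2.2 (pt b a.2))).sum +
    (D.pl.map fun d => (d.2.2.map fun e => (e.1 : ℝ) * (W1 e.2 (pt b a.1) * W1 e.2 (pt b a.2) *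
      zk d.1 d.2.1 (‖pt b a.1‖ ^ 2) (‖pt b a.2‖ ^ 2) ⟪pt b a.1, pt b a.2⟫)).sum).sum +
    (D.w.map fun d => (d.1 : ℝ) *
      (e1 d.2.2.2 (‖pt b a.1‖ ^ 2 + ‖pt b a.2‖ ^ 2 + 2 * ⟪pt b a.1, pt b a.2⟫) *
        e1 d.2.2.2 (‖pt b a.1‖ ^ 2 + ‖pt b a.2‖ ^ 2 - 2 * ⟪pt b a.1, pt b a.2⟫) *
          (G (pt b a.1) * G (pt b a.2)))).sum +
    (D.wl.map fun d => (d.2.2.map fun e => (e.1 : ℝ) * (
      e1 e.2 (‖pt b a.1‖ ^ 2 + ‖pt b a.2‖ ^ 2 + 2 * ⟪pt b a.1, pt b a.2⟫) *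
      e1 e.2 (‖pt b a.1‖ ^ 2 + ‖pt b a.2‖ ^ 2 - 2 * ⟪pt b a.1, pt b a.2⟫) *
      zk d.1 d.2.1 (‖pt b a.1‖ ^ 2 + ‖pt b a.2‖ ^ 2 + 2 * ⟪pt b a.1, pt b a.2⟫)
        (‖pt b a.1‖ ^ 2 + ‖pt b a.2‖ ^ 2 - 2 * ⟪pt b a.1, pt b a.2⟫)
        (‖pt b a.1‖ ^ 2 - ‖pt b a.2‖ ^ 2) * (G (pt b a.1) * G (pt b a.2)))).sum).sum := by
  unfold gLL DW.LL DW.K DW.KW DW.KL W
  set x := pt b a.1
  set y := pt b a.2
  have h1 : ∀ e r1 r2 r3 r4 g : ℝ, (e + (r1 + r2) + r3 + r4) * g =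
      e * g + r1 * g + r2 * g + r3 * g + r4 * g := by
    intro e r1 r2 r3 r4 g
    ring
  rw [h1]
  congr 1
  swap
  · rw [ls_mul]
    refine ls_congr _ fun d => ?_
    unfold K2
    rw [mul_assoc, ls_mul]
    refine ls_congr _ fun e => ?_
    ring
  congr 1
  · congr 1
    · congr 1
      unfold K2
      rw [ls_map, ls_mul]
      refine ls_congr _ fun d => ?_
      rw [← W1_mul]
      ring
    · rw [ls_mul]
      refine ls_congr _ fun d => ?_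
      unfold K2
      rw [mul_assoc, ls_mul]
      refine ls_congr _ fun e => ?_
      rw [← W1_mul]
      ring
  · rw [ls_mul]
    refine ls_congr _ fun d => ?_
    ring

/-- pairs of the dual lattice -/
theorem gSS_eq (b : Fin n → V n) (a : Z2 n) : gSS D b a = W D.Q (pt b a.1) (pt b a.2) := rfl

/-- mixed pairs -/
theorem gLS_eq (κ : ℝ) (b b' : Fin n → V n) (a : Z2 n) : gLS κ D b b' a =
    (-κ⁻¹) * W (T3 n D.P) (pt b' a.2) (pt b a.1) +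
      (-κ) * W (T3 n D.Q) (pt b a.1) (pt b' a.2) := by
  unfold gLS DW.LS W
  set x := pt b a.1
  set y := pt b' a.2
  rw [real_inner_comm x y]
  ring

/-- the double of a vector -/
theorem WH_two (s : List ℤ) (x : V n) :
    WH s ((2 : ℝ) • x) = e1 s (4 * ‖x‖ ^ 2) * Real.exp (-‖x‖ ^ 2) := by
  unfold WH
  have h : ‖(2 : ℝ) • x‖ ^ 2 = 4 * ‖x‖ ^ 2 := by
    rw [norm_smul, mul_pow, Real.norm_eq_abs]
    norm_num
  rw [h]
  congr 2
  ring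

/-- one vector of the lattice -/
theorem gL_eq (b : Fin n → V n) (a : Fin n → ℤ) : gL D b a =
    e3 D.g (‖pt b a‖ ^ 2) 0 0 * G (pt b a) +
    (D.ps.map fun d => (d.1 : ℝ) * (2 * d.2.1 * W1 d.2.2 (pt b a))).sum +
    (D.w.map fun d => (d.1 : ℝ) * (2 * d.2.1 * WH d.2.2.2 ((2 : ℝ) • pt b a))).sum := by
  unfold gL DW.f1 DW.wa bo
  set x := pt b a
  have h1 : ∀ e r1 r2 g h : ℝ, (e + 2 * r1) * g + 2 * r2 * h =
      e * g + r1 * (2 * g) + r2 * (2 * h) := by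
    intro e r1 r2 g h
    ring
  rw [h1, ls_mul, ls_mul]
  congr 1
  · congr 1
    refine ls_congr _ fun d => ?_
    unfold W1
    ring
  · refine ls_congr _ fun d => ?_
    rw [WH_two]
    ring

/-- one vector of the dual lattice -/
theorem gS_eq (κ : ℝ) (b : Fin n → V n) (a : Fin n → ℤ) : gS κ D b a =
    (-κ⁻¹) * (e3 (T3 n D.g) (‖pt b a‖ ^ 2) 0 0 * G (pt b a)) +
    (D.w.map fun d => (d.1 : ℝ) * (2 * κ⁻¹ * d.2.2.1 *
      (e3 (T3 n (dbl d.2.2.2)) (2 * ‖pt b a‖ ^ 2) 0 0 * Real.exp (-‖pt b a‖ ^ 2)))).sum := by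
  unfold gS DW.f1' DW.wb
  set x := pt b a
  have h1 : ∀ e r g h : ℝ, -(κ⁻¹ * e) * g + 2 * (κ⁻¹ * r) * h =
      (-κ⁻¹) * (e * g) + r * (2 * κ⁻¹ * h) := by
    intro e r g h
    ring
  rw [h1, ls_mul]
  congr 1
  refine ls_congr _ fun d => ?_
  ring

end

/-- multiplication with a bounded factor -/
theorem sum_bd {ι : Type} {f g : ι → ℝ} (hf : Summable f) (hg : ∀ a, |g a| ≤ 1) :
    Summable fun a => g a * f a := by
  refine Summable.of_norm_bounded hf.norm fun a => ?_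
  rw [norm_mul, Real.norm_eq_abs (g a)]
  calc |g a| * ‖f a‖ ≤ 1 * ‖f a‖ := mul_le_mul_of_nonneg_right (hg a) (norm_nonneg _)
    _ = ‖f a‖ := one_mul _

/-- the polynomial with the variable doubled -/
def p2 (p : P3) : P3 := p.map fun t => (t.1 * 2 ^ t.2.1, t.2.1, t.2.2.1, t.2.2.2)

theorem e3_p2 (p : P3) (A : ℝ) : e3 (p2 p) A 0 0 = e3 p (2 * A) 0 0 := by
  unfold e3 p2
  rw [ls_map]
  refine ls_congr _ fun t => ?_
  push_cast
  rw [mul_pow]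
  ring

theorem G_abs {n : ℕ} (x : V n) : |G x| ≤ 1 := by
  unfold G
  rw [abs_of_pos (Real.exp_pos _)]
  refine Real.exp_le_one_iff.2 ?_
  have := sq_nonneg ‖x‖
  linarith

theorem exp_G {n : ℕ} (x : V n) : Real.exp (-‖x‖ ^ 2) = G x * G x := by
  unfold G
  rw [← Real.exp_add]
  congr 1
  ring

/-- **TOV** -/
theorem tov (dua : DuaStmt) (sum : SumStmt) (mll : MllStmt) (gpo : GpoStmt) (ps0 : Ps0Stmt)
    (psg : PsgStmt) (wsq : WsqStmt) (wsl : WslStmt) (wpo : WpoStmt) (_fsv : FsvStmt) : TovStmt := by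
  intro n κ D b b' h2 hev hD hP hQ hg hz hz'
  have hκ := hD.pos
  have hD' := (dua n κ b b' hD).1
  obtain ⟨s1, s2, s3, s4⟩ := sum n κ κ b b b' b' hD hD
  obtain ⟨s1', s2', s3', s4'⟩ := sum n κ⁻¹ κ⁻¹ b' b' b b hD' hD'
  obtain ⟨_, m2, _, m4⟩ := sum n κ κ⁻¹ b b' b' b hD hD'
  obtain ⟨_, m2', _, _⟩ := sum n κ⁻¹ κ b' b b b' hD' hD
  have hEg : Ev D.g := fun t ht _ => by rw [(hg t ht).2]
  -- the sums
  have hLL := ((((s2 D.P).hasSum.add (hs_list D.ps _ _ fun d _ =>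
    (s4 d.2.2 d.2.2).hasSum.mul_left (d.1 : ℝ))).add (hs_list D.pl _ _ fun d hd =>
    hs_list d.2.2 _ _ fun e _ =>
      (psg n κ b b' h2 hD d.1 d.2.1 (hz d hd) e.2).1.hasSum.mul_left (e.1 : ℝ))).add
    (hs_list D.w _ _ fun d _ =>
      (wsq n hev κ b b' hD d.2.1 d.2.2.1 d.2.2.2).2.2.1.hasSum.mul_left (d.1 : ℝ))).add
    (hs_list D.wl _ _ fun d hd => hs_list d.2.2 _ _ fun e _ =>
      (wsl n κ b b' h2 hD d.1 d.2.1 (hz' d hd) e.2).1.hasSum.mul_left (e.1 : ℝ))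
  have hSS := (s2' D.Q).hasSum
  -- the mixed sums
  have hsw : Summable fun a : Z2 n => W (T3 n D.P) (pt b' a.2) (pt b a.1) :=
    (m2' (T3 n D.P)).prod_symm
  have hLS := ((hsw.hasSum.mul_left (-κ⁻¹)).add ((m2 (T3 n D.Q)).hasSum.mul_left (-κ)))
  have hgs : Summable fun a : Fin n → ℤ => e3 D.g (‖pt b a‖ ^ 2) 0 0 * G (pt b a) := by
    have h := s1 D.g 0
    simp only [norm_zero, inner_zero_right, ne_eq, OfNat.ofNat_ne_zero, not_false_eq_true,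
      zero_pow] at h
    exact h
  have hgs' : ∀ p : P3, Summable fun a : Fin n → ℤ =>
      e3 p (‖pt b' a‖ ^ 2) 0 0 * G (pt b' a) := by
    intro p
    have h := s1' p 0
    simp only [norm_zero, inner_zero_right, ne_eq, OfNat.ofNat_ne_zero, not_false_eq_true,
      zero_pow] at h
    exact h
  have hh' : ∀ p : P3, Summable fun a : Fin n → ℤ =>
      e3 p (2 * ‖pt b' a‖ ^ 2) 0 0 * Real.exp (-‖pt b' a‖ ^ 2) := by
    intro p
    have h := sum_bd (hgs' (p2 p)) (fun a => G_abs (pt b' a))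
    refine h.congr fun a => ?_
    rw [e3_p2, exp_G]
    ring
  have hL := (hgs.hasSum.add (hs_list D.ps _ _ fun d _ =>
      ((s3 d.2.2).hasSum.mul_left (2 * (d.2.1 : ℝ))).mul_left (d.1 : ℝ))).add
    (hs_list D.w _ _ fun d _ =>
      ((wsq n hev κ b b' hD d.2.1 d.2.2.1 d.2.2.2).2.1.hasSum.mul_left
        (2 * (d.2.1 : ℝ))).mul_left (d.1 : ℝ))
  have hS := ((hgs' (T3 n D.g)).hasSum.mul_left (-κ⁻¹)).add (hs_list D.w _ _ fun d _ =>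
    ((hh' (T3 n (dbl d.2.2.2))).hasSum.mul_left (2 * κ⁻¹ * (d.2.2.1 : ℝ))).mul_left (d.1 : ℝ))
  have eLL : (∑' a, gLL D b a) = _ := (hLL.tsum_eq ▸ tsum_congr fun a => gLL_eq D b a)
  have eSS : (∑' a, gSS D b' a) = _ := (hSS.tsum_eq ▸ tsum_congr fun a => gSS_eq D b' a)
  have eLS : (∑' a, gLS κ D b b' a) = _ := (hLS.tsum_eq ▸ tsum_congr fun a => gLS_eq D κ b b' a)
  have eL : (∑' a, gL D b a) = _ := (hL.tsum_eq ▸ tsum_congr fun a => gL_eq D b a)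
  have eS : (∑' a, gS κ D b' a) = _ := (hS.tsum_eq ▸ tsum_congr fun a => gS_eq D κ b' a)
  rw [eLL, eSS, eLS, eL, eS]
  -- the transforms
  have hneg : ∀ S : ℝ, -κ⁻¹ * (κ * S) = -S := by
    intro S
    rw [neg_mul, ← mul_assoc, inv_mul_cancel₀ hκ.ne', one_mul]
  have hneg' : ∀ S : ℝ, -κ * (κ⁻¹ * S) = -S := by
    intro S
    rw [neg_mul, ← mul_assoc, mul_inv_cancel₀ hκ.ne', one_mul]
  have tP : (∑' a : Z2 n, W (T3 n D.P) (pt b' a.2) (pt b a.1)) =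
      κ * ∑' a : Z2 n, W D.P (pt b a.1) (pt b a.2) := by
    rw [mll n κ κ b b' b b' hD hD D.P hP]
    exact (Equiv.prodComm (Fin n → ℤ) (Fin n → ℤ)).tsum_eq
      (fun a : Z2 n => W (T3 n D.P) (pt b' a.1) (pt b a.2))
  have tQ : (∑' a : Z2 n, W (T3 n D.Q) (pt b a.1) (pt b' a.2)) =
      κ⁻¹ * ∑' a : Z2 n, W D.Q (pt b' a.1) (pt b' a.2) :=
    (mll n κ⁻¹ κ⁻¹ b' b b' b hD' hD' D.Q hQ).symm
  have tg : (∑' a : Fin n → ℤ, e3 (T3 n D.g) (‖pt b' a‖ ^ 2) 0 0 * G (pt b' a)) =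
      κ * ∑' a : Fin n → ℤ, e3 D.g (‖pt b a‖ ^ 2) 0 0 * G (pt b a) :=
    (gpo n κ b b' hD D.g hEg).symm
  have tw : ∀ s : List ℤ, (∑' a : Fin n → ℤ, e3 (T3 n (dbl s)) (2 * ‖pt b' a‖ ^ 2) 0 0 *
      Real.exp (-‖pt b' a‖ ^ 2)) = κ * (rr n * ∑' a : Fin n → ℤ, WH s (pt b a)) :=
    fun s => (wpo n hev κ b b' hD s).symm
  rw [tP, tQ, tg, hneg, hneg', hneg]
  -- the squares
  have hps : 0 ≤ (D.ps.map fun d => (d.1 : ℝ) * (d.2.1 : ℝ) ^ 2).sum +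
      (D.ps.map fun d => (d.1 : ℝ) * (2 * (d.2.1 : ℝ) *
        ∑' a : Fin n → ℤ, W1 d.2.2 (pt b a))).sum +
      (D.ps.map fun d => (d.1 : ℝ) * ∑' a : Z2 n, W1 d.2.2 (pt b a.1) *
        W1 d.2.2 (pt b a.2)).sum := by
    rw [ls_add, ls_add]
    refine ls_nonneg _ _ fun d _ => ?_
    have h := mul_nonneg (Nat.cast_nonneg (α := ℝ) d.1) (ps0 n κ b b' hD d.2.1 d.2.2)
    refine le_of_le_of_eq h ?_
    ring
  have hpl : 0 ≤ (D.pl.map fun d => (d.2.2.map fun e => (e.1 : ℝ) * ∑' a : Z2 n,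
      W1 e.2 (pt b a.1) * W1 e.2 (pt b a.2) *
        zk d.1 d.2.1 (‖pt b a.1‖ ^ 2) (‖pt b a.2‖ ^ 2) ⟪pt b a.1, pt b a.2⟫).sum).sum :=
    ls_nonneg _ _ fun d hd => ls_nonneg _ _ fun e _ => mul_nonneg (Nat.cast_nonneg _)
      (psg n κ b b' h2 hD d.1 d.2.1 (hz d hd) e.2).2
  have hwl : 0 ≤ (D.wl.map fun d => (d.2.2.map fun e => (e.1 : ℝ) * ∑' a : Z2 n,
      e1 e.2 (‖pt b a.1‖ ^ 2 + ‖pt b a.2‖ ^ 2 + 2 * ⟪pt b a.1, pt b a.2⟫) *
      e1 e.2 (‖pt b a.1‖ ^ 2 + ‖pt b a.2‖ ^ 2 - 2 * ⟪pt b a.1, pt b a.2⟫) *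
      zk d.1 d.2.1 (‖pt b a.1‖ ^ 2 + ‖pt b a.2‖ ^ 2 + 2 * ⟪pt b a.1, pt b a.2⟫)
        (‖pt b a.1‖ ^ 2 + ‖pt b a.2‖ ^ 2 - 2 * ⟪pt b a.1, pt b a.2⟫)
        (‖pt b a.1‖ ^ 2 - ‖pt b a.2‖ ^ 2) * (G (pt b a.1) * G (pt b a.2))).sum).sum :=
    ls_nonneg _ _ fun d hd => ls_nonneg _ _ fun e _ => mul_nonneg (Nat.cast_nonneg _)
      (wsl n κ b b' h2 hD d.1 d.2.1 (hz' d hd) e.2).2
  -- the half width block
  have hw : 0 ≤ (D.w.map fun d => (d.1 : ℝ) *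
      ((d.2.1 : ℝ) ^ 2 + 2 * d.2.1 * d.2.2.1 * rr n + (d.2.2.1 : ℝ) ^ 2)).sum +
      (D.w.map fun d => (d.1 : ℝ) * ∑' a : Z2 n,
        e1 d.2.2.2 (‖pt b a.1‖ ^ 2 + ‖pt b a.2‖ ^ 2 + 2 * ⟪pt b a.1, pt b a.2⟫) *
          e1 d.2.2.2 (‖pt b a.1‖ ^ 2 + ‖pt b a.2‖ ^ 2 - 2 * ⟪pt b a.1, pt b a.2⟫) *
            (G (pt b a.1) * G (pt b a.2))).sum +
      (D.w.map fun d => (d.1 : ℝ) * (2 * (d.2.1 : ℝ) *
        ∑' a : Fin n → ℤ, WH d.2.2.2 ((2 : ℝ) • pt b a))).sum +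
      (D.w.map fun d => (d.1 : ℝ) * (2 * κ⁻¹ * (d.2.2.1 : ℝ) *
        ∑' a : Fin n → ℤ, e3 (T3 n (dbl d.2.2.2)) (2 * ‖pt b' a‖ ^ 2) 0 0 *
          Real.exp (-‖pt b' a‖ ^ 2))).sum := by
    rw [ls_add, ls_add, ls_add]
    refine ls_nonneg _ _ fun d _ => ?_
    have h := mul_nonneg (Nat.cast_nonneg (α := ℝ) d.1)
      (wsq n hev κ b b' hD d.2.1 d.2.2.1 d.2.2.2).2.2.2
    refine le_of_le_of_eq h ?_
    rw [tw]
    have hk : ∀ X : ℝ, 2 * κ⁻¹ * (d.2.2.1 : ℝ) * (κ * X) = 2 * (d.2.2.1 : ℝ) * X := by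
      intro X
      calc 2 * κ⁻¹ * (d.2.2.1 : ℝ) * (κ * X) = 2 * (d.2.2.1 : ℝ) * (κ⁻¹ * κ) * X := by ring
        _ = 2 * (d.2.2.1 : ℝ) * X := by rw [inv_mul_cancel₀ hκ.ne', mul_one]
    rw [hk]
    ring
  have ec0 : DW.c0 n D = (D.w.map fun d => (d.1 : ℝ) *
      ((d.2.1 : ℝ) ^ 2 + 2 * d.2.1 * d.2.2.1 * rr n + (d.2.2.1 : ℝ) ^ 2)).sum := rfl
  have ebp : bc D.ps = (D.ps.map fun d => (d.1 : ℝ) * (d.2.1 : ℝ) ^ 2).sum := rfl
  rw [ec0, ebp]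
  linarith

end Pool.Agent.LPV.H39
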